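import Pool.Agent.MP_1ba41f_an.S2.W.SpecK
import Pool.Agent.MP_1ba41f_an.S2.KP.Spec

/-! Long Kepler arcs: the statements that depend on the mass ratio. -/

noncomputable section
open Set Complex
open scoped ComplexConjugate

namespace Pool.Agent.MP_1ba41f_an.S2.W.KP

open Pool.Agent.MP_1ba41f_an.S2.KP

variable [Lam]

/-- the starting point of the limit arc -/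
def y0 (σ : ℝ) (x : ℂ × C2) : Ez := st (collB σ x.1 x.2) 1 0

/-- the angle of the letter `j` in the limit -/
def g0 (j : Fin 3) (x : ℂ × C2) : ℂ := gj j x.1 (PP (sg j) x.1 x.2)

/-- CB: the collision state of the limit. -/
def CbStmt : Prop := ∀ σ : ℝ, σ = 1 ∨ σ = -1 →
  ContinuousOn (fun x : ℂ × C2 => collB σ x.1 x.2) {x | OkM x.1 x.2 ∧ 0 < x.2.1.re} ∧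
  ∀ x ∈ B1, RealZ (collB σ x.1 x.2) ∧ Eng 1 0 (collB σ x.1 x.2) ∧ nn (collB σ x.1 x.2) ≠ 0 ∧
    dd (collB σ x.1 x.2) = 0 ∧ ddt (collB σ x.1 x.2) = 0 ∧ FL.dD (collB σ x.1 x.2) ≠ 0 ∧
    FL.dDt (collB σ x.1 x.2) ≠ 0 ∧ ∀ τ2 τ3 : ℂ,
      KS 1 0 (collB σ x.1 x.2) τ2 τ3 0 = w2b σ x.1 x.2 τ2 ∧
      KS 1 0 (collB σ x.1 x.2) τ2 τ3 4 = w3b σ x.1 x.2 τ3 ∧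
      (Sync 1 0 (collB σ x.1 x.2) τ2 τ3 ↔ t2b σ x.1 x.2 τ2 = t3b σ x.1 x.2 τ3)

/-- LIM: the real arcs of the limit. -/
def LimStmt : Prop := ∀ x ∈ B1, ∀ σ : ℝ, σ = 1 ∨ σ = -1 → ∀ s : ℝ, 0 ≤ s →
  (y0 σ x, (s : ℂ)) ∈ OE ∧ ∃ τ2 τ3 : ℝ, 0 ≤ τ2 ∧ 0 ≤ τ3 ∧ τ2 + τ3 = s ∧
    t2b σ x.1 x.2 τ2 = t3b σ x.1 x.2 τ3 ∧ (FE (y0 σ x, (s : ℂ))).2.2.1 = τ3 ∧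
    (FE (y0 σ x, (s : ℂ))).1 0 = w2b σ x.1 x.2 τ2 ∧ (FE (y0 σ x, (s : ℂ))).1 4 = w3b σ x.1 x.2 τ3 ∧
    (0 < s → dd (FE (y0 σ x, (s : ℂ))).1 ≠ 0 ∧ ddt (FE (y0 σ x, (s : ℂ))).1 ≠ 0)

/-- P1: bounded times, near the limit. -/
def P1Stmt : Prop := ∀ σs e : ℝ, 0 < e → ∃ d > 0, ∀ x ∈ B1, ∀ σ : ℝ, σ = 1 ∨ σ = -1 → ∀ y : Ez,
  ‖y - y0 σ x‖ ≤ d → ∀ s ∈ Icc (0 : ℝ) σs, ∀ ζ : ℂ, ‖ζ - s‖ ≤ d →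
    (y, ζ) ∈ OE ∧ ‖FE (y, ζ) - FE (y0 σ x, (s : ℂ))‖ ≤ e

/-- S1: small times. -/
def S1Stmt : Prop := ∃ (d0 c0 : ℝ) (s1 : ℝ → ℝ), 0 < d0 ∧ 0 < c0 ∧ (∀ e, 0 < e → 0 < s1 e) ∧
  ∀ x ∈ B1, ∀ σ : ℝ, σ = 1 ∨ σ = -1 → ∀ y : Ez, ‖y - y0 σ x‖ ≤ d0 →
    c0 ≤ ‖FL.dD y.1‖ ∧ ‖FL.dD y.1‖ ≤ 1 / c0 ∧ c0 ≤ ‖FL.dDt y.1‖ ∧
    ∀ e : ℝ, 0 < e → ∀ ζ : ℂ, ‖ζ‖ ≤ s1 e → (y, ζ) ∈ OE ∧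
      ‖dd (FE (y, ζ)).1 - dd y.1 - ζ * FL.dD y.1‖ ≤ e * ‖ζ‖ ∧
      ‖ddt (FE (y, ζ)).1 - ddt y.1 - ζ * FL.dDt y.1‖ ≤ e * ‖ζ‖

/-- P1D: no second collision of the small bodies in bounded time. -/
def P1DStmt : Prop := ∀ σs : ℝ, ∃ d > 0, ∀ x ∈ B1, ∀ σ : ℝ, σ = 1 ∨ σ = -1 → ∀ y : Ez,
  ‖y - y0 σ x‖ ≤ d → dd y.1 = 0 → ddt y.1 = 0 → ∀ s ∈ Icc (0 : ℝ) σs, ∀ ζ : ℂ, ‖ζ - s‖ ≤ d →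
    ζ ≠ 0 → dd (FE (y, ζ)).1 ≠ 0 ∧ ddt (FE (y, ζ)).1 ≠ 0

/-- FIN: the matched quantities at the end of the arc. -/
def FinStmt : Prop := ∀ C : ℝ, 1 ≤ C → ∃ B > 0, ∀ μ : ℝ, 0 < μ → ∃ ε0 > 0,
  ∀ (ε ν0 : ℝ) (κ2 ν : ℂ) (z : Az), ε ≤ ε0 → Dat C ε ν0 κ2 ν z →
  ∀ (m : ℕ) (j : Fin 3) (κ γ S0 dT τ2 τ3 : ℂ), ν0 ^ 3 = 4 * m → 0 < ((1 / ν) ^ 2).re →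
    sq ((1 / ν) ^ 2) = 1 / ν → rr2 z ≠ 0 → rr3 z ≠ 0 → 1 - hX z ≠ 0 →
    1 + sq (kk2 z) * aG2 z ≠ 0 → OkZ κ (UV z) →
    ‖Fh z / mid j κ (UV z) * exp (I * γ) - 1‖ ≤ ε → ‖aS3 z - S0‖ ≤ ε → ‖γ‖ ≤ C → ‖S0‖ ≤ C →
    ‖dT‖ ≤ 1 / 4 → τ2 + τ3 = Real.pi * ν0 ^ 3 + γ + Real.pi * ν - S0 + dT →
    |(τ2 + τ3).im| ≤ 1 / 4 → Sync κ2 (1 / ν) z τ2 τ3 → Reg ν0 τ3 → 1 ≤ τ3.re →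
    KS κ2 (1 / ν) z τ2 τ3 4 ≠ 0 → KS κ2 (1 / ν) z τ2 τ3 5 ≠ 0 →
    ‖κ2 * τ2 - Real.pi * ν0 ^ 3 - γ - dT‖ ≤ μ ∧ 2 ≤ (tk κ2 (rr2 z) (aS2 z) τ2).re ∧
      (KS κ2 (1 / ν) z τ2 τ3 0 ≠ 0 → KS κ2 (1 / ν) z τ2 τ3 1 ≠ 0 →
        OkA j κ (KS κ2 (1 / ν) z τ2 τ3) ∧ kk2 (KS κ2 (1 / ν) z τ2 τ3) = κ2 ^ 2 ∧
        kk3 (KS κ2 (1 / ν) z τ2 τ3) = (1 / ν) ^ 2 ∧ LK (KS κ2 (1 / ν) z τ2 τ3) = ν ^ 3 ∧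
        UV (KS κ2 (1 / ν) z τ2 τ3) = UV z ∧
        ‖LS (mid j κ (UV z)) (KS κ2 (1 / ν) z τ2 τ3) - dT‖ ≤ μ ∧
        ‖LP (mid j κ (UV z)) (KS κ2 (1 / ν) z τ2 τ3) - Real.pi * (ν ^ 3 - ν0 ^ 3)‖ ≤ B)

/-- LONG: existence of the long arcs. -/
def LongStmt : Prop := ∀ C : ℝ, 1 ≤ C → ∃ d > 0, ∃ ε0 > 0, ∀ x ∈ B1, ∀ σ : ℝ, σ = 1 ∨ σ = -1 →
  ∀ (ε ν0 : ℝ) (κ ν : ℂ) (z : Az), ε ≤ ε0 → Dat C ε ν0 κ ν z → ‖z - collB σ x.1 x.2‖ ≤ d →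
    dd z = 0 → ddt z = 0 → ∀ T : ℂ, ν0 ^ 3 ≤ T.re → T.re ≤ (Real.pi + 1 / 4) * ν0 ^ 3 →
    |T.im| ≤ 1 / 4 →
    (∀ u ∈ Icc (0 : ℝ) 1, (st z (κ ^ 2) ((1 / ν) ^ 2), (u : ℂ) * T) ∈ OE ∧ (0 < u →
      dd (FE (st z (κ ^ 2) ((1 / ν) ^ 2), (u : ℂ) * T)).1 ≠ 0 ∧
      ddt (FE (st z (κ ^ 2) ((1 / ν) ^ 2), (u : ℂ) * T)).1 ≠ 0)) ∧
    Reg ν0 (FE (st z (κ ^ 2) ((1 / ν) ^ 2), T)).2.2.1 ∧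
    1 ≤ (FE (st z (κ ^ 2) ((1 / ν) ^ 2), T)).2.2.1.re ∧
    (FE (st z (κ ^ 2) ((1 / ν) ^ 2), T)).1 4 ≠ 0 ∧ (FE (st z (κ ^ 2) ((1 / ν) ^ 2), T)).1 5 ≠ 0

/-- NEAR: a complex neighbourhood of the resonant circles. -/
def NearStmt : Prop := ∃ d0 > 0, ∃ C : ℝ, 1 ≤ C ∧
  (∀ x ∈ Metric.cthickening d0 B1, OkM x.1 x.2 ∧ OkZ x.1 (PP 1 x.1 x.2) ∧
    OkZ x.1 (PP (-1) x.1 x.2) ∧ OkX a0 (yB x) ∧ cl / 2 ≤ x.2.1.re ∧ cl / 2 ≤ x.1.re ∧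
    ∀ j, ‖collB (sg j) x.1 x.2‖ + 1 ≤ C ∧ ‖g0 j x‖ ≤ C ∧ ‖bS (sg j) x.1 x.2‖ ≤ C ∧
      |(g0 j x).im| ≤ 1 / 20 ∧ |(bS (sg j) x.1 x.2).im| ≤ 1 / 20) ∧
  ∀ μ : ℝ, 0 < μ → ∃ δ > 0, ∀ x ∈ Metric.cthickening d0 B1, ∀ (a : ℝ) (y : Fin 6 → ℂ),
    |a - a0| ≤ δ → ‖y - yB x‖ ≤ δ → OkX a y ∧ Sec (y 2) ∧ Sec (e2 a y) ∧
      ∀ σ : ℝ, σ = 1 ∨ σ = -1 → ‖xiY a σ y - xiB σ x.1 x.2‖ ≤ μ ∧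
        ‖coll a (xiY a σ y) - collB σ x.1 x.2‖ ≤ μ ∧
        Sec (xiY a σ y 4 / xiY a σ y 5 + xiY a σ y 5 / xiY a σ y 4)

/-- MOD: moduli of continuity at the resonant circles, and two margins. -/
def ModStmt : Prop :=
  (∀ e : ℝ, 0 < e → ∃ d > 0, ∀ x0 ∈ B1, ∀ x : ℂ × C2, dist x x0 ≤ d → ∀ j,
    ‖collB (sg j) x.1 x.2 - collB (sg j) x0.1 x0.2‖ ≤ e ∧ ‖g0 j x - g0 j x0‖ ≤ e) ∧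
  (∃ d > 0, ∀ x0 ∈ B1, ∀ (j : Fin 3) (z : Az) (κ θ : ℂ), ‖z - collB (sg j) x0.1 x0.2‖ ≤ d →
    ‖κ - 1‖ ≤ d → ‖θ - g0 j x0‖ ≤ d → z 0 * cos (θ / 2) + z 2 * sin (θ / 2) / κ ≠ 0 ∧
      z 1 * cos (θ / 2) + z 3 * sin (θ / 2) / κ ≠ 0) ∧
  ∃ c1 > 0, ∃ d > 0, ∀ x0 ∈ B1, ∀ σ : ℝ, σ = 1 ∨ σ = -1 → ∀ z : Az, ‖x0.2.2‖ ≤ 2 * c1 →
    ‖z - collB σ x0.1 x0.2‖ ≤ d → 2 * c1 ≤ ‖aG2 z‖ ∧ 2 * c1 ≤ ‖aG3 z‖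

/-- NEAR2: the conserved quantities near the collision states of the limit. -/
def Near2Stmt : Prop := ∀ K : Set (ℂ × C2), IsCompact K →
  (∀ x ∈ K, OkM x.1 x.2 ∧ 0 < x.2.1.re ∧ OkZ x.1 (PP 1 x.1 x.2) ∧ OkZ x.1 (PP (-1) x.1 x.2)) →
  ∀ μ : ℝ, 0 < μ → ∃ δ > 0, ∀ x ∈ K, ∀ (j : Fin 3) (z : Az), ‖z - collB (sg j) x.1 x.2‖ ≤ δ →
    rr2 z ≠ 0 ∧ rr3 z ≠ 0 ∧ 1 - hX z ≠ 0 ∧ 1 + sq (kk2 z) * aG2 z ≠ 0 ∧ OkZ x.1 (UV z) ∧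
    ‖UV z - PP (sg j) x.1 x.2‖ ≤ μ ∧ ‖Fh z / mid j x.1 (UV z) * exp (I * g0 j x) - 1‖ ≤ μ ∧
    ‖aS3 z - bS (sg j) x.1 x.2‖ ≤ μ

end Pool.Agent.MP_1ba41f_an.S2.W.KP
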