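import Pool.Agent.MP_1ba41f_an.S2.W.KP.Spec

/-! The collision state of the limit. -/

noncomputable section
open Set Complex
open scoped ComplexConjugate

namespace Pool.Agent.MP_1ba41f_an.S2.W.KP

open Pool.Agent.MP_1ba41f_an.S2.KP

namespace Cb

theorem conj_sq {z : ℂ} (h1 : z.im = 0) (h2 : 0 ≤ z.re) : conj (sq z) = sq z := by
  have e : z = (z.re : ℂ) := Complex.ext (by simp) (by simp [h1])
  have e2 : (1 / 2 : ℂ) = ((1 / 2 : ℝ) : ℂ) := by norm_num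
  rw [e, sq, e2, ← ofReal_cpow h2, conj_ofReal]

variable [Lam]

theorem cont (hA : AnaStmt) {σ : ℝ} (hσ : σ = 1 ∨ σ = -1) :
    ContinuousOn (fun x : ℂ × C2 => collB σ x.1 x.2) {x | OkM x.1 x.2 ∧ 0 < x.2.1.re} := by
  have h := ((hA.1.2 σ hσ).2.continuousOn).mono
    (t := {x : ℂ × C2 | OkM x.1 x.2 ∧ 0 < x.2.1.re}) fun x hx => hx.1
  have hm : ContinuousOn (fun x : ℂ × C2 => x.2.1) {x | OkM x.1 x.2 ∧ 0 < x.2.1.re} := by
    fun_prop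
  have h0 : ∀ x ∈ {x : ℂ × C2 | OkM x.1 x.2 ∧ 0 < x.2.1.re}, x.2.1 ≠ 0 := fun x hx => hx.1.1
  have hq : ContinuousOn (fun x : ℂ × C2 => sq x.2.1) {x | OkM x.1 x.2 ∧ 0 < x.2.1.re} :=
    hm.cpow_const fun x hx => Or.inl hx.2
  have h2 := h.snd.snd.snd.fst
  have h3 := h.snd.snd.snd.snd.fst
  have h3t : ContinuousOn (fun x : ℂ × C2 => bv3t σ x.1 x.2)
      {x | OkM x.1 x.2 ∧ 0 < x.2.1.re} :=
    (h.fst.sub (continuousOn_const.mul h.snd.fst)).div hm h0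
  have h2t : ContinuousOn (fun x : ℂ × C2 => bv2t σ x.1 x.2)
      {x | OkM x.1 x.2 ∧ 0 < x.2.1.re} := by
    refine ((((continuousOn_const (c := (2 : ℂ))).mul h.snd.snd.fst).div hm h0).sub h2).congr
      fun x hx => ?_
    have := h0 x hx
    show bv2t σ x.1 x.2 = 2 * bS2 σ x.1 x.2 / x.2.1 - bv2 σ x.1 x.2
    unfold bS2
    field_simp
    ring
  refine continuousOn_pi.2 fun i => ?_
  fin_cases i
  exacts [hq, hq, hq.mul h2, hq.mul h2t, hq, hq, hq.mul h3, hq.mul h3t, continuousOn_const]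

end Cb

variable [Lam]

open Cb in
theorem cbS (hB : AlgBStmt) (hM : AlgMStmt) (hA : AnaStmt) (h0 : BaseStmt) : CbStmt := by
  intro σ hσ
  refine ⟨cont hA hσ, fun x hx => ?_⟩
  obtain ⟨-, k1, k2, -, k3, k4, -⟩ := h0.2.1 x hx
  obtain ⟨s, ξ, sb, cb, s1, s2, s3, s4, s5, s6, hx'⟩ := hx
  obtain ⟨-, e1, -, e2, -⟩ := h0.2.2 s ξ sb cb s1 s2 s3 s4 s5 s6 x.1 x.2 (by rw [hx']) (by rw [hx'])
  obtain ⟨-, ⟨r2, r3, q2, q3, -, -, a2, a3, -⟩, -⟩ := hB σ x.1 x.2 hσ k4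
  obtain ⟨-, -, -, -, -, -, c2, c3⟩ := hM.2.1 σ x.1 x.2 k1 k2 k4
  have hm : x.2.1 ≠ 0 := k4.1
  have hc : conj (sq x.2.1) = sq x.2.1 := conj_sq k2.1 (by linarith [cl_pos])
  have hq : sq x.2.1 * sq x.2.1 = x.2.1 := r2
  have hq0 : sq x.2.1 ≠ 0 := fun h => hm (by rw [← hq, h, mul_zero])
  have hn : nn (collB σ x.1 x.2) ≠ 0 := by
    rw [nn, r2, r3, ← two_mul]
    exact mul_ne_zero two_ne_zero hm
  rw [kk2, r2, div_eq_one_iff_eq hm] at q2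
  rw [kk3, r3, div_eq_zero_iff, or_iff_left hm] at q3
  have q3' : sq x.2.1 * bv3 σ x.1 x.2 * (sq x.2.1 * bv3t σ x.1 x.2) = 2 := (sub_eq_zero.1 q3).symm
  have n3 : bv3 σ x.1 x.2 ≠ 0 := fun h => by simp [h] at q3'
  have n3t : bv3t σ x.1 x.2 ≠ 0 := fun h => by simp [h] at q3'
  have hσ0 : σ * s ≠ 0 := mul_ne_zero (by rcases hσ with h | h <;> simp [h])
    (ne_of_gt (by linarith [lam_pos]))
  have f1 : 2 - (bEta x.1 x.2 - I * σ * bs x.1 x.2) ≠ 0 := fun h => hσ0 (by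
    rw [e1, e2] at h
    simpa using congrArg Complex.im h)
  have f2 : 2 - (bEta x.1 x.2 + I * σ * bs x.1 x.2) ≠ 0 := fun h => hσ0 (by
    rw [e1, e2] at h
    simpa using congrArg Complex.im h)
  refine ⟨⟨hc.symm, ?_, hc.symm, ?_, rfl⟩, ⟨?_, ?_⟩, hn, sub_self _, sub_self _, ?_, ?_,
    fun τ2 τ3 => ⟨?_, ?_, ?_⟩⟩
  · show sq x.2.1 * bv2t σ x.1 x.2 = conj (sq x.2.1 * bv2 σ x.1 x.2)
    rw [map_mul, hc, c2]
  · show sq x.2.1 * bv3t σ x.1 x.2 = conj (sq x.2.1 * bv3 σ x.1 x.2)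
    rw [map_mul, hc, c3]
  · rw [r2]
    linear_combination -q2
  · linear_combination -q3
  · refine div_ne_zero ?_ hn
    rw [r2, r3]
    have e : sq x.2.1 * bv3 σ x.1 x.2 * sq x.2.1 * x.2.1 -
        sq x.2.1 * bv2 σ x.1 x.2 * sq x.2.1 * x.2.1 = sq x.2.1 * sq x.2.1 * x.2.1 *
          bv3 σ x.1 x.2 * (2 - (bEta x.1 x.2 - I * σ * bs x.1 x.2)) / 2 := by
      unfold bv2
      ring
    refine ne_of_eq_of_ne e ?_
    exact div_ne_zero (mul_ne_zero (mul_ne_zero (mul_ne_zero (mul_ne_zero hq0 hq0) hm) n3) f1)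
      two_ne_zero
  · refine div_ne_zero ?_ hn
    rw [r2, r3]
    have e : sq x.2.1 * bv3t σ x.1 x.2 * sq x.2.1 * x.2.1 -
        sq x.2.1 * bv2t σ x.1 x.2 * sq x.2.1 * x.2.1 = sq x.2.1 * sq x.2.1 * x.2.1 *
          bv3t σ x.1 x.2 * (2 - (bEta x.1 x.2 + I * σ * bs x.1 x.2)) / 2 := by
      unfold bv2t
      ring
    refine ne_of_eq_of_ne e ?_
    exact div_ne_zero (mul_ne_zero (mul_ne_zero (mul_ne_zero (mul_ne_zero hq0 hq0) hm) n3t) f2)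
      two_ne_zero
  · show sq x.2.1 * cs 1 τ2 + sq x.2.1 * bv2 σ x.1 x.2 * sn 1 τ2 / 2 = _
    simp only [cs, sn, w2b, one_ne_zero, if_false, one_mul, div_one]
    ring
  · show sq x.2.1 * cs 0 τ3 + sq x.2.1 * bv3 σ x.1 x.2 * sn 0 τ3 / 2 = _
    simp only [cs, sn, w3b, if_true, zero_mul, zero_div, cos_zero]
    ring
  · have t2 : tk 1 x.2.1 (bS2 σ x.1 x.2) τ2 = t2b σ x.1 x.2 τ2 := by
      simp only [tk, t2b, one_ne_zero, if_false, one_mul, div_one, one_pow]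
      ring
    have t3 : tk 0 x.2.1 (bS σ x.1 x.2) τ3 = t3b σ x.1 x.2 τ3 := by
      simp only [tk, t3b, if_true]
    rw [Sync, r2, r3, a2, a3, t2, t3]

end Pool.Agent.MP_1ba41f_an.S2.W.KP
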