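import Pool.Agent.MP_1ba41f_an.S2.W.KP.Spec

/-! Existence of the long Kepler arcs. -/

noncomputable section
open Set Complex

namespace Pool.Agent.MP_1ba41f_an.S2.W.KP

open Pool.Agent.MP_1ba41f_an.S2.KP

namespace Long

theorem sq_ne {a b : ℂ} (h : ‖a‖ + 1 ≤ ‖b‖) : b ^ 2 - a ^ 2 ≠ 0 := fun e => by
  have := congrArg norm (sub_eq_zero.1 e)
  rw [norm_pow, norm_pow] at this
  nlinarith [norm_nonneg a]

theorem nn_ge {w : Az} (h0 : ‖w 0‖ + 1 ≤ ‖w 4‖) (h1 : ‖w 1‖ + 1 ≤ ‖w 5‖) : 1 ≤ ‖nn w‖ := by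
  have e : w 4 * w 5 = nn w - w 0 * w 1 := by simp [nn, rr2, rr3]
  have h := norm_sub_le (nn w) (w 0 * w 1)
  rw [← e, norm_mul, norm_mul] at h
  have := mul_le_mul h0 h1 (by positivity) (norm_nonneg _)
  nlinarith [norm_nonneg (w 0), norm_nonneg (w 1)]

theorem closed_reg (ν0 : ℝ) : IsClosed {y : Ez | Reg ν0 y.2.2.1} := by
  unfold Reg
  refine IsClosed.and ?_ (IsClosed.and ?_ ?_) <;> exact isClosed_le (by fun_prop) (by fun_prop)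

theorem mem_int {ν0 : ℝ} {y : Ez} (h1 : 1 < y.2.2.1.re) (h2 : y.2.2.1.re < (Real.pi + 1 / 2) * ν0)
    (h3 : |y.2.2.1.im| < 1 / 2) : y ∈ interior {y : Ez | Reg ν0 y.2.2.1} := by
  have ho : IsOpen {y : Ez | 1 < y.2.2.1.re ∧ y.2.2.1.re < (Real.pi + 1 / 2) * ν0 ∧
      |y.2.2.1.im| < 1 / 2} := by
    refine IsOpen.and ?_ (IsOpen.and ?_ ?_) <;> exact isOpen_lt (by fun_prop) (by fun_prop)
  refine interior_maximal (fun y hy => ?_) ho ⟨h1, h2, h3⟩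
  exact ⟨by linarith [hy.1], hy.2.1.le, hy.2.2.le⟩

theorem reg_norm {ν0 : ℝ} {τ : ℂ} (h0 : 0 < ν0) (h : Reg ν0 τ) :
    ‖τ‖ ≤ (Real.pi + 1 / 2) * ν0 + 2 := by
  have h1 : 0 < (Real.pi + 1 / 2) * ν0 := by have := Real.pi_pos; positivity
  have h2 : |τ.re| ≤ (Real.pi + 1 / 2) * ν0 + 1 := abs_le.2 ⟨by linarith [h.1], by linarith [h.2.1]⟩
  linarith [norm_le_abs_re_add_abs_im τ, h.2.2]

/-- The starting point is near the starting point of the limit. -/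
theorem near {C ε ν0 d : ℝ} {κ ν : ℂ} {z w : Az} (h : Dat C ε ν0 κ ν z) (e1 : ε ≤ 1 / 2)
    (e2 : ε ≤ d / 3) (hz : ‖z - w‖ ≤ d) : ‖st z (κ ^ 2) ((1 / ν) ^ 2) - st w 1 0‖ ≤ d := by
  have p := h.pos
  have b := h.big
  have hε : 0 < ε := by
    by_contra hn
    nlinarith [mul_nonneg (neg_nonneg.2 (not_lt.1 hn)) p.le]
  have n2 : 2 ≤ ν0 := by nlinarith
  have k1 : ‖κ - 1‖ ≤ ε := by
    have : 1 ≤ ν0 ^ 3 := one_le_pow₀ (by linarith)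
    nlinarith [h.ka, norm_nonneg (κ - 1)]
  have k2 : ‖κ ^ 2 - 1‖ ≤ d := by
    have e : κ ^ 2 - 1 = (κ - 1) * ((κ - 1) + 2) := by ring
    have a : ‖(κ - 1) + 2‖ ≤ 3 := by
      have := norm_add_le (κ - 1) 2
      rw [Complex.norm_two] at this
      linarith
    rw [e, norm_mul]
    nlinarith [mul_le_mul k1 a (norm_nonneg _) hε.le]
  have k3 : ν0 / 2 ≤ ‖ν‖ := by
    have := norm_sub_norm_le (ν0 : ℂ) ν
    rw [norm_sub_rev, norm_real, Real.norm_of_nonneg p.le] at this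
    linarith [h.nu]
  have k4 : ‖1 / ν‖ ≤ 2 * ε := by
    rw [norm_div, norm_one, div_le_iff₀ (by linarith)]
    nlinarith
  have k5 : ‖(1 / ν) ^ 2 - 0‖ ≤ d := by
    rw [sub_zero, norm_pow]
    nlinarith [norm_nonneg (1 / ν)]
  have d0 : ‖(0 : ℂ) - 0‖ ≤ d := by simp only [sub_self, norm_zero]; linarith
  exact norm_prod_le_iff.2 ⟨hz, norm_prod_le_iff.2 ⟨d0, norm_prod_le_iff.2 ⟨d0,
    norm_prod_le_iff.2 ⟨k2, k5⟩⟩⟩⟩

end Long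

variable [Lam]

open Long

theorem longS (hE : FlowEStmt) (hP : RepStmt) (hC : ConsStmt) (hB : BootStmt) (hL : LimStmt)
    (h1 : P1Stmt) (hD : P1DStmt) (hb : BarStmt) : LongStmt := by
  intro C hC1
  obtain ⟨σs, hσs, εb, hεb, bar⟩ := hb C hC1
  obtain ⟨d1, hd1, p1⟩ := h1 σs (1 / 4) (by norm_num)
  obtain ⟨d2, hd2, p2⟩ := hD σs
  have hd : 0 < min d1 d2 := lt_min hd1 hd2
  refine ⟨min d1 d2, hd, min (min εb (1 / 2)) (min (min d1 d2 / 3)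
    (min (min d1 d2 / σs) (1 / (σs + 1)))), by positivity, ?_⟩
  intro x hx σ hσ ε ν0 κ ν z hε D hz z1 z2 T T1 T2 T3
  simp only [le_min_iff (c := ε)] at hε
  obtain ⟨⟨e0, e1⟩, e2, e3, e4⟩ := hε
  have p := D.pos
  have b := D.big
  have hy : ‖st z (κ ^ 2) ((1 / ν) ^ 2) - y0 σ x‖ ≤ min d1 d2 := near D e1 e2 hz
  set y := st z (κ ^ 2) ((1 / ν) ^ 2) with ey
  have n1 : σs + 1 ≤ ν0 := by
    rw [le_div_iff₀ (by linarith)] at e4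
    nlinarith
  have n2 : ν0 ≤ T.re := le_trans (le_self_pow₀ (by linarith) (by norm_num)) T1
  have n3 : 0 < T.re := by linarith
  have hu0 : σs / T.re ∈ Icc (0 : ℝ) 1 := ⟨by positivity, (div_le_one n3).2 (by linarith)⟩
  have n4 : σs / T.re ≤ min d1 d2 := by
    rw [le_div_iff₀ hσs] at e3
    rw [div_le_iff₀ n3]
    nlinarith [mul_le_mul_of_nonneg_left n2 hd.le, mul_le_mul_of_nonneg_right e3 p.le]
  have small : ∀ u ∈ Icc (0 : ℝ) (σs / T.re), u * T.re ∈ Icc (0 : ℝ) σs ∧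
      ‖(u : ℂ) * T - (u * T.re : ℝ)‖ ≤ min d1 d2 := fun u hu => by
    refine ⟨⟨mul_nonneg hu.1 n3.le, (le_div_iff₀ n3).1 hu.2⟩, ?_⟩
    have e : (u : ℂ) * T - (u * T.re : ℝ) = (u * T.im : ℝ) * I := by
      apply Complex.ext <;> simp
    rw [e, norm_mul, norm_I, mul_one, norm_real, Real.norm_eq_abs, abs_mul, abs_of_nonneg hu.1]
    nlinarith [hu.1, hu.2, abs_nonneg T.im]
  have key : ∀ u ∈ Icc (σs / T.re) 1, (y, (u : ℂ) * T) ∈ OE → Reg ν0 (FE (y, (u : ℂ) * T)).2.2.1 →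
      ∃ τ2 τ3 : ℂ, FE (y, (u : ℂ) * T) = (KS κ (1 / ν) z τ2 τ3, τ2, τ3, κ ^ 2, (1 / ν) ^ 2) ∧
        τ2 + τ3 = (u : ℂ) * T ∧ Reg ν0 τ3 ∧
        (1 < τ3.re ∧ τ3.re < (Real.pi + 1 / 2) * ν0 ∧ |τ3.im| < 1 / 2) ∧
        ‖KS κ (1 / ν) z τ2 τ3 0‖ + 1 ≤ ‖KS κ (1 / ν) z τ2 τ3 4‖ ∧
        ‖KS κ (1 / ν) z τ2 τ3 1‖ + 1 ≤ ‖KS κ (1 / ν) z τ2 τ3 5‖ := fun u hu ho hr => by
    obtain ⟨τ2, τ3, a1, a2, a3⟩ := hP κ (1 / ν) z _ D.eng ho
    have u0 : 0 ≤ u := hu0.1.trans hu.1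
    rw [a1] at hr
    refine ⟨τ2, τ3, a1, a2, hr, bar ε ν0 κ ν z e0 D τ2 τ3 a3 ?_ ?_ ?_ hr⟩
    · rw [a2, re_ofReal_mul]; exact (div_le_iff₀ n3).1 hu.1
    · rw [a2, re_ofReal_mul]; nlinarith [hu.2]
    · rw [a2, im_ofReal_mul, abs_mul, abs_of_nonneg u0]; nlinarith [hu.2, abs_nonneg T.im]
  have cK := (hC κ (1 / ν) z D.eng).1
  have cn : Continuous nn := by unfold nn rr2 rr3; fun_prop
  set R := ‖T‖ + ((Real.pi + 1 / 2) * ν0 + 2) with eR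
  have hS : IsCompact ((Metric.closedBall (0 : ℂ) R ×ˢ Metric.closedBall (0 : ℂ) R) ∩
      {t : ℂ × ℂ | 1 ≤ ‖nn (KS κ (1 / ν) z t.1 t.2)‖}) :=
    ((isCompact_closedBall _ _).prod (isCompact_closedBall _ _)).inter_right
      (isClosed_le continuous_const (cn.comp cK).norm)
  have hK := hS.image (f := fun t : ℂ × ℂ =>
    ((KS κ (1 / ν) z t.1 t.2, t.1, t.2, κ ^ 2, (1 / ν) ^ 2) : Ez)) (cK.prodMk (by fun_prop))
  obtain ⟨s0, s1⟩ := small _ ⟨hu0.1, le_rfl⟩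
  obtain ⟨q1, q2⟩ := p1 x hx σ hσ y (hy.trans (min_le_left _ _)) _ s0 _ (s1.trans (min_le_left _ _))
  have r0 : Reg ν0 (FE (y, ((σs / T.re : ℝ) : ℂ) * T)).2.2.1 := by
    obtain ⟨-, t2, t3, a2, a3, a4, -, a5, -⟩ := hL x hx σ hσ _ s0.1
    have a6 := (norm_fst_le _).trans ((norm_snd_le _).trans ((norm_snd_le _).trans q2))
    simp only [Prod.snd_sub, Prod.fst_sub, a5] at a6
    have a7 := abs_le.1 ((abs_re_le_norm _).trans a6)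
    have a8 := (abs_im_le_norm _).trans a6
    simp only [sub_re, ofReal_re, sub_im, ofReal_im, sub_zero] at a7 a8
    refine ⟨by linarith [a7.1], ?_, by linarith⟩
    nlinarith [a7.2, s0.2, Real.pi_gt_three]
  have boot := hB Ez XE DE OE FE hE _ _ hK (by
    rintro _ ⟨t, ht, rfl⟩ h0
    have : 1 ≤ ‖nn (KS κ (1 / ν) z t.1 t.2)‖ := ht.2
    rw [show nn (KS κ (1 / ν) z t.1 t.2) = 0 from h0, norm_zero] at this
    linarith) (closed_reg ν0) y T _ hu0 q1 r0 fun u hu ho hr => by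
      obtain ⟨τ2, τ3, a1, a2, a3, a4, a5, a6⟩ := key u hu ho hr
      rw [a1]
      have b1 := reg_norm p a3
      have b2 : ‖τ2‖ ≤ R := by
        have u0 : 0 ≤ u := hu0.1.trans hu.1
        have c := norm_sub_le ((u : ℂ) * T) τ3
        rw [← eq_sub_of_add_eq a2, norm_mul, norm_real, Real.norm_of_nonneg u0] at c
        nlinarith [hu.2, norm_nonneg T]
      exact ⟨⟨(τ2, τ3), ⟨⟨mem_closedBall_zero_iff.2 b2, mem_closedBall_zero_iff.2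
        (by linarith [norm_nonneg T])⟩, nn_ge a5 a6⟩, rfl⟩, mem_int a4.1 a4.2.1 a4.2.2⟩
  refine ⟨fun u hu => ?_, ?_⟩
  · rcases le_total u (σs / T.re) with h | h
    · obtain ⟨s2, s3⟩ := small u ⟨hu.1, h⟩
      refine ⟨(p1 x hx σ hσ y (hy.trans (min_le_left _ _)) _ s2 _ (s3.trans (min_le_left _ _))).1,
        fun hp => p2 x hx σ hσ y (hy.trans (min_le_right _ _)) z1 z2 _ s2 _
          (s3.trans (min_le_right _ _)) (mul_ne_zero (ofReal_ne_zero.2 hp.ne') fun e => ?_)⟩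
      rw [e, zero_re] at n3
      exact lt_irrefl _ n3
    · obtain ⟨ho, hr⟩ := boot u ⟨h, hu.2⟩
      obtain ⟨τ2, τ3, a1, -, -, -, a5, a6⟩ := key u ⟨h, hu.2⟩ ho hr
      rw [a1]
      exact ⟨ho, fun _ => ⟨sq_ne a5, sq_ne a6⟩⟩
  · obtain ⟨ho, hr⟩ := boot 1 ⟨hu0.2, le_rfl⟩
    obtain ⟨τ2, τ3, a1, -, a3, a4, a5, a6⟩ := key 1 ⟨hu0.2, le_rfl⟩ ho hr
    rw [ofReal_one, one_mul] at a1
    rw [a1]
    exact ⟨a3, a4.1.le, norm_pos_iff.1 (by linarith [norm_nonneg (KS κ (1 / ν) z τ2 τ3 0)]),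
      norm_pos_iff.1 (by linarith [norm_nonneg (KS κ (1 / ν) z τ2 τ3 1)])⟩

end Pool.Agent.MP_1ba41f_an.S2.W.KP
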