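import Pool.Agent.MP_1ba41f_an.S2.W.KP.Spec
import Pool.Agent.MP_1ba41f_an.S2.FL.Soft

/-! Moduli of continuity at the resonant circles, and two margins. -/

noncomputable section
open Set Complex Metric
open scoped ComplexConjugate

namespace Pool.Agent.MP_1ba41f_an.S2.W.KP

open Pool.Agent.MP_1ba41f_an.S2.KP

variable [Lam]

namespace Mod

/-- the regular set -/
def V : Set (ℂ × C2) :=
  {x | OkM x.1 x.2 ∧ 0 < x.2.1.re ∧ OkZ x.1 (PP 1 x.1 x.2) ∧ OkZ x.1 (PP (-1) x.1 x.2)}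

omit [Lam] in
theorem sg_cases (j : Fin 3) : sg j = 1 ∨ sg j = -1 := by
  unfold sg; split_ifs <;> simp

theorem cPP (hN : AnaStmt) {σ : ℝ} (hσ : σ = 1 ∨ σ = -1) :
    ContinuousOn (fun x : ℂ × C2 => (x.1, PP σ x.1 x.2)) {x | OkM x.1 x.2} :=
  continuousOn_fst.prodMk (hN.1.2 σ hσ).1.continuousOn

theorem V_open (hN : AnaStmt) : IsOpen V := by
  have h1 := (cPP hN (Or.inl rfl)).isOpen_inter_preimage hN.1.1 hN.2.1.1
  have h2 := (cPP hN (Or.inr rfl)).isOpen_inter_preimage hN.1.1 hN.2.1.1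
  have h3 : IsOpen {x : ℂ × C2 | 0 < x.2.1.re} := isOpen_lt continuous_const (by fun_prop)
  convert (h1.inter h2).inter h3 using 1
  ext x
  simp only [V, mem_ofPred_eq, mem_inter_iff, mem_preimage]
  tauto

theorem B1_V (h0 : BaseStmt) : B1 ⊆ V := fun x hx => by
  obtain ⟨-, -, -, -, h5, h6, -, h8, h9⟩ := h0.2.1 x hx
  exact ⟨h6, by linarith [cl_pos], h8, h9⟩

theorem cColl (hb : CbStmt) {σ : ℝ} (hσ : σ = 1 ∨ σ = -1) :
    ContinuousOn (fun x : ℂ × C2 => collB σ x.1 x.2) V :=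
  (hb σ hσ).1.mono fun _ hx => ⟨hx.1, hx.2.1⟩

theorem cG (hN : AnaStmt) (j : Fin 3) : ContinuousOn (g0 j) V := by
  have h1 : ContinuousOn (fun x : ℂ × C2 => gj j x.1 x.2) {x | OkZ x.1 x.2} :=
    (hN.2.1.2.2 j).continuousOn.fst
  have h2 := (cPP hN (sg_cases j)).mono (show V ⊆ _ from fun _ hx => hx.1)
  have h3 : MapsTo (fun x : ℂ × C2 => (x.1, PP (sg j) x.1 x.2)) V {x | OkZ x.1 x.2} := by
    intro x hx
    show OkZ x.1 (PP (sg j) x.1 x.2)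
    rcases sg_cases j with h | h <;> rw [h]
    exacts [hx.2.2.1, hx.2.2.2]
  exact (h1.comp h2 h3).congr fun x _ => rfl

theorem part1 (hN : AnaStmt) (h0 : BaseStmt) (hb : CbStmt) (e : ℝ) (he : 0 < e) :
    ∃ d > 0, ∀ x0 ∈ B1, ∀ x : ℂ × C2, dist x x0 ≤ d → ∀ j,
      ‖collB (sg j) x.1 x.2 - collB (sg j) x0.1 x0.2‖ ≤ e ∧ ‖g0 j x - g0 j x0‖ ≤ e := by
  have hc : ContinuousOn (fun (x : ℂ × C2) (j : Fin 3) => (collB (sg j) x.1 x.2, g0 j x)) V :=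
    continuousOn_pi.2 fun j => (cColl hb (sg_cases j)).prodMk (cG hN j)
  obtain ⟨d, hd, -, h⟩ := soft_unif h0.1 (V_open hN) (B1_V h0) hc he
  refine ⟨d, hd, fun x0 hx0 x hx j => ?_⟩
  have h1 := (dist_le_pi_dist _ _ j).trans (h x0 hx0 x hx).2
  rw [Prod.dist_eq, max_le_iff, dist_eq_norm, dist_eq_norm] at h1
  exact h1

/-- the open set of the second part -/
def Wo : Set (Az × ℂ × ℂ) :=
  {p | p.2.1 ≠ 0 ∧ p.1 0 * cos (p.2.2 / 2) * p.2.1 + p.1 2 * sin (p.2.2 / 2) ≠ 0 ∧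
    p.1 1 * cos (p.2.2 / 2) * p.2.1 + p.1 3 * sin (p.2.2 / 2) ≠ 0}

omit [Lam] in
theorem W_open : IsOpen Wo :=
  (isOpen_ne_fun (by fun_prop) continuous_const).inter
    ((isOpen_ne_fun (by fun_prop) continuous_const).inter
      (isOpen_ne_fun (by fun_prop) continuous_const))

theorem g0_real (hM : AlgMStmt) (h0 : BaseStmt) {x : ℂ × C2} (hx : x ∈ B1) (j : Fin 3) :
    conj (g0 j x) = g0 j x := by
  obtain ⟨-, h2, h3, -, -, h6, -, h8, -⟩ := h0.2.1 x hx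
  unfold g0 gj
  split_ifs with h
  · subst h
    have e : sg 2 = 1 := by simp [sg]
    rw [e]
    exact conj_eq_iff_im.2 (hM.2.2.1 _ _ h2 (hM.2.1 1 _ _ h2 h3 h6).1 h8).2.1
  · exact map_zero _

theorem mem_W (hM : AlgMStmt) (h0 : BaseStmt) (hy : EarlyStmt) (hb : CbStmt) {x : ℂ × C2}
    (hx : x ∈ B1) (j : Fin 3) : (collB (sg j) x.1 x.2, (1 : ℂ), g0 j x) ∈ Wo := by
  have h1 : collB (sg j) x.1 x.2 0 * cos (g0 j x / 2) * 1 +
      collB (sg j) x.1 x.2 2 * sin (g0 j x / 2) ≠ 0 := by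
    have e : collB (sg j) x.1 x.2 0 * cos (g0 j x / 2) * 1 +
        collB (sg j) x.1 x.2 2 * sin (g0 j x / 2) = w2b (sg j) x.1 x.2 (g0 j x) := by
      simp only [collB, w2b, Matrix.cons_val_zero, Matrix.cons_val]
      ring
    rw [e]
    by_cases h : j = 2
    · subst h
      have e : sg 2 = 1 := by simp [sg]
      have e' : g0 2 x = gz x.1 (PP 1 x.1 x.2) := by simp [g0, gj, e]
      rw [e', e]
      exact (hy x hx).2.1
    · have e' : g0 j x = 0 := by simp [g0, gj, h]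
      have hm : x.2.1 ≠ 0 := (B1_V h0 hx).1.1
      rw [e']
      simp [w2b, sq, hm]
  refine ⟨one_ne_zero, h1, ?_⟩
  obtain ⟨r1, r3, -⟩ := ((hb _ (sg_cases j)).2 x hx).1
  have hg : conj (g0 j x / 2) = g0 j x / 2 := by
    rw [map_div₀, g0_real hM h0 hx, map_ofNat]
  intro h
  apply h1
  have := congrArg conj h
  simp only [map_add, map_mul, map_zero, map_one, r1, r3, conj_conj, ← cos_conj, ← sin_conj,
    hg] at this
  exact this

theorem part2 (hM : AlgMStmt) (hN : AnaStmt) (h0 : BaseStmt) (hy : EarlyStmt) (hb : CbStmt) :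
    ∃ d > 0, ∀ x0 ∈ B1, ∀ (j : Fin 3) (z : Az) (κ θ : ℂ), ‖z - collB (sg j) x0.1 x0.2‖ ≤ d →
      ‖κ - 1‖ ≤ d → ‖θ - g0 j x0‖ ≤ d → z 0 * cos (θ / 2) + z 2 * sin (θ / 2) / κ ≠ 0 ∧
        z 1 * cos (θ / 2) + z 3 * sin (θ / 2) / κ ≠ 0 := by
  have hK : IsCompact (⋃ j : Fin 3,
      (fun x : ℂ × C2 => (collB (sg j) x.1 x.2, (1 : ℂ), g0 j x)) '' B1) :=
    isCompact_iUnion fun j => h0.1.image_of_continuousOn
      (((cColl hb (sg_cases j)).prodMk (continuousOn_const.prodMk (cG hN j))).mono (B1_V h0))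
  obtain ⟨d, hd, h⟩ := hK.exists_cthickening_subset_open W_open (iUnion_subset fun j => by
    rintro _ ⟨x, hx, rfl⟩; exact mem_W hM h0 hy hb hx j)
  refine ⟨d, hd, fun x0 hx0 j z κ θ h1 h2 h3 => ?_⟩
  have hw : (z, κ, θ) ∈ Wo := h (mem_cthickening_of_dist_le _ _ d _
    (mem_iUnion.2 ⟨j, mem_image_of_mem _ hx0⟩) (by
      rw [Prod.dist_eq, Prod.dist_eq, max_le_iff, max_le_iff, dist_eq_norm, dist_eq_norm,
        dist_eq_norm]
      exact ⟨h1, h2, h3⟩))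
  obtain ⟨w1, w2, w3⟩ := hw
  simp only at w1 w2 w3
  refine ⟨fun e => w2 ?_, fun e => w3 ?_⟩
  · field_simp at e
    linear_combination e
  · field_simp at e
    linear_combination e

omit [Lam] in
theorem c2 : Continuous aG2 := by unfold aG2; fun_prop
omit [Lam] in
theorem c3 : Continuous aG3 := by unfold aG3; fun_prop

theorem part3 (hB : AlgBStmt) (hN : AnaStmt) (h0 : BaseStmt) (hy : EarlyStmt) (hb : CbStmt) :
    ∃ c1 > 0, ∃ d > 0, ∀ x0 ∈ B1, ∀ σ : ℝ, σ = 1 ∨ σ = -1 → ∀ z : Az, ‖x0.2.2‖ ≤ 2 * c1 →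
      ‖z - collB σ x0.1 x0.2‖ ≤ d → 2 * c1 ≤ ‖aG2 z‖ ∧ 2 * c1 ≤ ‖aG3 z‖ := by
  have hO : IsOpen {z : Az | aG2 z ≠ 0 ∧ aG3 z ≠ 0} :=
    (isOpen_ne_fun c2 continuous_const).inter (isOpen_ne_fun c3 continuous_const)
  have u1 := (cColl hb (Or.inl rfl)).isOpen_inter_preimage (V_open hN) hO
  have u2 := (cColl hb (Or.inr rfl)).isOpen_inter_preimage (V_open hN) hO
  have key : ∀ x ∈ B1, x.2.2 = 0 → ∀ σ : ℝ, σ = 1 ∨ σ = -1 →
      aG2 (collB σ x.1 x.2) ≠ 0 ∧ aG3 (collB σ x.1 x.2) ≠ 0 := fun x hx e σ hσ => by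
    obtain ⟨-, -, -, -, a, b, -⟩ := (hB σ x.1 x.2 hσ (B1_V h0 hx).1).2.1
    rw [a, b]
    exact ((hy x hx).2.2 e σ hσ).symm
  obtain ⟨ρ, hρ, h1⟩ := soft_zero h0.1 (u1.inter u2) (g := fun x : ℂ × C2 => x.2.2)
    (by fun_prop) fun x hx e =>
      ⟨⟨B1_V h0 hx, key x hx e 1 (Or.inl rfl)⟩, B1_V h0 hx, key x hx e (-1) (Or.inr rfl)⟩
  have hK : IsCompact (B1 ∩ {x : ℂ × C2 | ‖x.2.2‖ ≤ ρ}) :=
    h0.1.inter_right (isClosed_le (by fun_prop) continuous_const)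
  have hs : B1 ∩ {x : ℂ × C2 | ‖x.2.2‖ ≤ ρ} ⊆ V := inter_subset_left.trans (B1_V h0)
  have hL := (hK.image_of_continuousOn ((cColl hb (Or.inl rfl)).mono hs)).union
    (hK.image_of_continuousOn ((cColl hb (Or.inr rfl)).mono hs))
  obtain ⟨d, hd, h2⟩ := hL.exists_cthickening_subset_open hO (by
    rintro _ (⟨x, hx, rfl⟩ | ⟨x, hx, rfl⟩)
    exacts [(h1 x hx.1 hx.2).1.2, (h1 x hx.1 hx.2).2.2])
  obtain ⟨m, hm, h3⟩ := (hL.cthickening (r := d)).exists_forall_le'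
    (f := fun z => min ‖aG2 z‖ ‖aG3 z‖) (c2.norm.min c3.norm).continuousOn (a := 0)
    fun z hz => lt_min (norm_pos_iff.2 (h2 hz).1) (norm_pos_iff.2 (h2 hz).2)
  refine ⟨min ρ m / 2, half_pos (lt_min hρ hm), d, hd, fun x0 hx0 σ hσ z e1 e2 => ?_⟩
  have e3 : x0 ∈ B1 ∩ {x : ℂ × C2 | ‖x.2.2‖ ≤ ρ} :=
    ⟨hx0, show ‖x0.2.2‖ ≤ ρ by linarith [min_le_left ρ m]⟩
  have e4 := h3 z (mem_cthickening_of_dist_le _ (collB σ x0.1 x0.2) d _ (by
    rcases hσ with rfl | rfl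
    exacts [Or.inl (mem_image_of_mem _ e3), Or.inr (mem_image_of_mem _ e3)])
    (by rwa [dist_eq_norm]))
  rw [le_min_iff] at e4
  exact ⟨by linarith [min_le_right ρ m, e4.1], by linarith [min_le_right ρ m, e4.2]⟩

end Mod

theorem modS (hB : AlgBStmt) (hM : AlgMStmt) (hN : AnaStmt) (h0 : BaseStmt) (hy : EarlyStmt)
    (hb : CbStmt) : ModStmt :=
  ⟨Mod.part1 hN h0 hb, Mod.part2 hM hN h0 hy hb, Mod.part3 hB hN h0 hy hb⟩

end Pool.Agent.MP_1ba41f_an.S2.W.KP
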