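import Pool.Agent.MP_1ba41f_an.S2.W.KP.Spec
import Pool.Agent.MP_1ba41f_an.S2.FL.Soft

/-! A complex neighbourhood of the resonant circles. -/

noncomputable section
open Set Complex Filter Topology
open scoped ComplexConjugate

namespace Pool.Agent.MP_1ba41f_an.S2.W.KP

open Pool.Agent.MP_1ba41f_an.S2.KP

variable [Lam]

namespace Near

omit [Lam] in
theorem sg_pm (j : Fin 3) : sg j = 1 ∨ sg j = -1 := by
  unfold sg; split_ifs <;> simp

omit [Lam] in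
theorem sec_open : IsOpen {z : ℂ | Sec z} :=
  isOpen_lt (by fun_prop) (by fun_prop)

omit [Lam] in
theorem sec_real {z : ℂ} (h : z.im = 0) (h' : 0 < z.re) : Sec z := by
  unfold Sec; rw [h]; simpa using h'

theorem yB_cont : Continuous yB := by
  refine continuous_pi fun i => ?_
  fin_cases i <;> simp only [yB] <;> simp <;> fun_prop

omit [Lam] in
theorem e2_real (a : ℝ) {y : Fin 6 → ℂ} (h : ∀ i, (y i).im = 0) : (e2 a y).im = 0 := by
  have h' : ∀ i, conj (y i) = y i := fun i => conj_eq_iff_im.2 (h i)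
  refine conj_eq_iff_im.1 ?_
  simp only [e2, yy, yt, map_div₀, map_mul, map_add, map_sub, map_one, map_ofNat, h', conj_I,
    conj_ofReal]
  ring

/-- The good centre data. -/
def Wo : Set (ℝ × (Fin 6 → ℂ)) :=
  {p | OkX p.1 p.2 ∧ Sec (p.2 2) ∧ Sec (e2 p.1 p.2) ∧
    Sec (xiY p.1 1 p.2 4 / xiY p.1 1 p.2 5 + xiY p.1 1 p.2 5 / xiY p.1 1 p.2 4) ∧
    Sec (xiY p.1 (-1) p.2 4 / xiY p.1 (-1) p.2 5 + xiY p.1 (-1) p.2 5 / xiY p.1 (-1) p.2 4)}

theorem W_open (hA : AlgAStmt) (hN : AnaStmt) : IsOpen Wo := by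
  obtain ⟨-, -, ⟨hO, hC⟩, -⟩ := hN
  refine isOpen_iff_mem_nhds.2 fun p hp => ?_
  obtain ⟨h1, h2, h3, h4, h5⟩ := hp
  have hU := hO.mem_nhds h1
  have key : ∀ σ : ℝ, σ = 1 ∨ σ = -1 → ContinuousAt (fun p : ℝ × (Fin 6 → ℂ) =>
      xiY p.1 σ p.2 4 / xiY p.1 σ p.2 5 + xiY p.1 σ p.2 5 / xiY p.1 σ p.2 4) p := fun σ hσ => by
    have c := ((hC σ hσ).1.continuousAt hU).fst
    have c4 := (continuous_apply 4).continuousAt.comp c
    have c5 := (continuous_apply 5).continuousAt.comp c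
    obtain ⟨⟨n4, n5, -⟩, -⟩ := hA p.1 σ p.2 hσ h1
    exact (c4.div c5 n5).add (c5.div c4 n4)
  have c2 : ContinuousAt (fun p : ℝ × (Fin 6 → ℂ) => p.2 2) p := by fun_prop
  have c3 := ((hC 1 (Or.inl rfl)).1.continuousAt hU).snd.snd
  filter_upwards [hU, c2.eventually (sec_open.mem_nhds h2), c3.eventually (sec_open.mem_nhds h3),
    (key 1 (Or.inl rfl)).eventually (sec_open.mem_nhds h4),
    (key (-1) (Or.inr rfl)).eventually (sec_open.mem_nhds h5)] with q k1 k2 k3 k4 k5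
  exact ⟨k1, k2, k3, k4, k5⟩

theorem W_base (hA : AlgAStmt) (h0 : BaseStmt) {x : ℂ × C2} (hx : x ∈ B1) :
    ((a0 : ℝ), yB x) ∈ Wo := by
  obtain ⟨-, r1, r2, -, r4, -, r6, -, -⟩ := h0.2.1 x hx
  have hr : ∀ i, (yB x i).im = 0 := fun i => by
    fin_cases i <;> simp [yB, r1, r2.1, r2.2]
  have key : ∀ σ : ℝ, σ = 1 ∨ σ = -1 → Sec (xiY a0 σ (yB x) 4 / xiY a0 σ (yB x) 5 +
      xiY a0 σ (yB x) 5 / xiY a0 σ (yB x) 4) := fun σ hσ => by
    obtain ⟨t, ht, e⟩ := ((hA _ σ _ hσ r6).2 hr).2.2.2 rfl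
    rw [e]
    exact sec_real (ofReal_im t) (by simpa using ht)
  exact ⟨r6, sec_real (hr 2) r6.2.2.1, sec_real (e2_real _ hr) r6.2.2.2.2.1, key 1 (Or.inl rfl),
    key (-1) (Or.inr rfl)⟩

theorem cPP (hN : AnaStmt) {σ : ℝ} (hσ : σ = 1 ∨ σ = -1) {x : ℂ × C2} (h : OkM x.1 x.2) :
    ContinuousAt (fun x : ℂ × C2 => (x.1, PP σ x.1 x.2)) x :=
  continuousAt_fst.prodMk ((hN.1.2 σ hσ).1.continuousOn.continuousAt (hN.1.1.mem_nhds h))

theorem cbS (hN : AnaStmt) {σ : ℝ} (hσ : σ = 1 ∨ σ = -1) {x : ℂ × C2} (h : OkM x.1 x.2) :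
    ContinuousAt (fun x : ℂ × C2 => bS σ x.1 x.2) x :=
  ((hN.1.2 σ hσ).2.continuousOn.continuousAt (hN.1.1.mem_nhds h)).fst

theorem cg0 (hN : AnaStmt) (j : Fin 3) {x : ℂ × C2} (h : OkM x.1 x.2)
    (hz : OkZ x.1 (PP (sg j) x.1 x.2)) : ContinuousAt (g0 j) x := by
  have c := ((hN.2.1.2.2 j).continuousOn.continuousAt
    (hN.2.1.1.mem_nhds (x := (x.1, PP (sg j) x.1 x.2)) hz)).fst
  exact ContinuousAt.comp (f := fun x : ℂ × C2 => (x.1, PP (sg j) x.1 x.2)) c (cPP hN (sg_pm j) h)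

theorem okz {x : ℂ × C2} (h1 : OkZ x.1 (PP 1 x.1 x.2)) (h2 : OkZ x.1 (PP (-1) x.1 x.2))
    (j : Fin 3) : OkZ x.1 (PP (sg j) x.1 x.2) := by
  rcases sg_pm j with e | e <;> rw [e] <;> assumption

/-- The good points of the chart. -/
def G : Set (ℂ × C2) :=
  {x | OkM x.1 x.2 ∧ OkZ x.1 (PP 1 x.1 x.2) ∧ OkZ x.1 (PP (-1) x.1 x.2) ∧
    ((a0 : ℝ), yB x) ∈ Wo ∧ cl / 2 < x.2.1.re ∧ cl / 2 < x.1.re ∧
    ∀ j, |(g0 j x).im| < 1 / 20 ∧ |(bS (sg j) x.1 x.2).im| < 1 / 20}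

theorem G_nhds (hA : AlgAStmt) (hM : AlgMStmt) (hN : AnaStmt) (h0 : BaseStmt) {x : ℂ × C2}
    (hx : x ∈ B1) : G ∈ 𝓝 x := by
  obtain ⟨-, r1, r2, r3, r4, r5, r6, r7, r8⟩ := h0.2.1 x hx
  have e1 := hN.1.1.mem_nhds (x := x) r5
  have e2 := (cPP hN (Or.inl rfl) r5).eventually (hN.2.1.1.mem_nhds r7)
  have e3 := (cPP hN (Or.inr rfl) r5).eventually (hN.2.1.1.mem_nhds r8)
  have c4 : Continuous fun x : ℂ × C2 => ((a0 : ℝ), yB x) := continuous_const.prodMk yB_cont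
  have e4 := c4.continuousAt.eventually ((W_open hA hN).mem_nhds (W_base hA h0 hx))
  have e5 : ∀ᶠ x : ℂ × C2 in 𝓝 x, cl / 2 < x.2.1.re :=
    (isOpen_lt continuous_const (by fun_prop)).mem_nhds (show cl / 2 < x.2.1.re by linarith [cl_pos])
  have e6 : ∀ᶠ x : ℂ × C2 in 𝓝 x, cl / 2 < x.1.re :=
    (isOpen_lt continuous_const (by fun_prop)).mem_nhds (show cl / 2 < x.1.re by linarith [cl_pos])
  have o : IsOpen {z : ℂ | |z.im| < 1 / 20} := isOpen_lt (by fun_prop) continuous_const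
  have e7 : ∀ᶠ x : ℂ × C2 in 𝓝 x, ∀ j, |(g0 j x).im| < 1 / 20 ∧
      |(bS (sg j) x.1 x.2).im| < 1 / 20 := by
    refine eventually_all.2 fun j => ?_
    obtain ⟨p1, p2, -⟩ := hM.2.1 (sg j) x.1 x.2 r1 r2 r5
    have p3 : (g0 j x).im = 0 := by
      unfold g0 gj
      split_ifs
      · exact (hM.2.2.1 _ _ r1 p1 (okz r7 r8 j)).2.1
      · rfl
    exact ((cg0 hN j r5 (okz r7 r8 j)).eventually (o.mem_nhds (by simp [p3]))).and
      ((cbS hN (sg_pm j) r5).eventually (o.mem_nhds (by simp [p2])))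
  filter_upwards [e1, e2, e3, e4, e5, e6, e7] with q k1 k2 k3 k4 k5 k6 k7
  exact ⟨k1, k2, k3, k4, k5, k6, k7⟩

end Near

open Near in
theorem nearS (hA : AlgAStmt) (hB : AlgBStmt) (hM : AlgMStmt) (hN : AnaStmt) (h0 : BaseStmt)
    (hb : CbStmt) : NearStmt := by
  obtain ⟨d0, hd0, hK⟩ := h0.1.exists_cthickening_subset_open (isOpen_interior (s := G))
    fun x hx => mem_interior_iff_mem_nhds.2 (G_nhds hA hM hN h0 hx)
  have hG : Metric.cthickening d0 B1 ⊆ G := hK.trans interior_subset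
  have hc : IsCompact (Metric.cthickening d0 B1) := h0.1.cthickening
  have cf : ContinuousOn (fun (x : ℂ × C2) (j : Fin 3) =>
      (collB (sg j) x.1 x.2, g0 j x, bS (sg j) x.1 x.2)) (Metric.cthickening d0 B1) := by
    refine continuousOn_pi.2 fun j => ?_
    refine ((hb _ (sg_pm j)).1.mono fun x hx => ?_).prodMk fun x hx => ?_
    · obtain ⟨k1, -, -, -, k5, -⟩ := hG hx
      exact ⟨k1, by linarith [cl_pos]⟩
    · obtain ⟨k1, k2, k3, -⟩ := hG hx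
      exact ((cg0 hN j k1 (okz k2 k3 j)).prodMk (cbS hN (sg_pm j) k1)).continuousWithinAt
  obtain ⟨M, hM'⟩ := hc.exists_bound_of_continuousOn cf
  refine ⟨d0, hd0, |M| + 1, by linarith [abs_nonneg M], fun x hx => ?_, fun μ hμ => ?_⟩
  · obtain ⟨k1, k2, k3, k4, k5, k6, k7⟩ := hG hx
    refine ⟨k1, k2, k3, k4.1, k5.le, k6.le, fun j => ?_⟩
    have b := ((norm_le_pi_norm _ j).trans (hM' x hx)).trans (le_abs_self M)
    have b1 := (norm_fst_le _).trans b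
    have b2 := (norm_fst_le _).trans ((norm_snd_le _).trans b)
    have b3 := (norm_snd_le _).trans ((norm_snd_le _).trans b)
    dsimp only at b1 b2 b3
    exact ⟨by linarith, by linarith, by linarith, (k7 j).1.le, (k7 j).2.le⟩
  · have c4 : Continuous fun x : ℂ × C2 => ((a0 : ℝ), yB x) := continuous_const.prodMk yB_cont
    have hW : (fun x : ℂ × C2 => ((a0 : ℝ), yB x)) '' Metric.cthickening d0 B1 ⊆ Wo := by
      rintro _ ⟨x, hx, rfl⟩
      exact (hG hx).2.2.2.1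
    have c1 := (hN.2.2.1.2 1 (Or.inl rfl)).1.mono (t := Wo) fun p hp => hp.1
    have c2 := (hN.2.2.1.2 (-1) (Or.inr rfl)).1.mono (t := Wo) fun p hp => hp.1
    obtain ⟨d1, hd1, -, u1⟩ := soft_unif (hc.image c4) (W_open hA hN) hW c1 hμ
    obtain ⟨d2, hd2, -, u2⟩ := soft_unif (hc.image c4) (W_open hA hN) hW c2 hμ
    refine ⟨min d1 d2, lt_min hd1 hd2, fun x hx a y ha hy => ?_⟩
    have hd : dist (a, y) ((a0 : ℝ), yB x) ≤ min d1 d2 := by
      rw [Prod.dist_eq, Real.dist_eq, dist_eq_norm]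
      exact max_le ha hy
    obtain ⟨w, v1⟩ := u1 _ ⟨x, hx, rfl⟩ (a, y) (hd.trans (min_le_left _ _))
    obtain ⟨-, v2⟩ := u2 _ ⟨x, hx, rfl⟩ (a, y) (hd.trans (min_le_right _ _))
    obtain ⟨k1, -, -, k4, -⟩ := hG hx
    refine ⟨w.1, w.2.1, w.2.2.1, fun σ hσ => ?_⟩
    have ec := (hB σ x.1 x.2 hσ k1).1.2.2.2 k4.1
    rw [← ec, ← dist_eq_norm, ← dist_eq_norm]
    rw [Prod.dist_eq, Prod.dist_eq, max_le_iff, max_le_iff] at v1 v2
    rcases hσ with rfl | rfl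
    · exact ⟨v1.1, v1.2.1, w.2.2.2.1⟩
    · exact ⟨v2.1, v2.2.1, w.2.2.2.2⟩

end Pool.Agent.MP_1ba41f_an.S2.W.KP
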