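import Pool.Agent.MP_1ba41f_an.S2.W.KP.Spec
import Pool.Agent.MP_1ba41f_an.S2.FL.Dir

/-! Bounded and small times near the arcs of the limit: compactness arguments. -/

noncomputable section
open Set Complex Metric

namespace Pool.Agent.MP_1ba41f_an.S2.W.KP

open Pool.Agent.MP_1ba41f_an.S2.KP

variable [Lam]

namespace P1

/-- the starting points of the limit arcs -/
def Y : Set Ez := y0 1 '' B1 ∪ y0 (-1) '' B1

theorem mem_Y {x : ℂ × C2} (hx : x ∈ B1) {σ : ℝ} (hσ : σ = 1 ∨ σ = -1) : y0 σ x ∈ Y := by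
  rcases hσ with rfl | rfl
  · exact Or.inl ⟨x, hx, rfl⟩
  · exact Or.inr ⟨x, hx, rfl⟩

theorem of_mem {y : Ez} (hy : y ∈ Y) : ∃ x ∈ B1, ∃ σ : ℝ, (σ = 1 ∨ σ = -1) ∧ y = y0 σ x := by
  rcases hy with ⟨x, hx, rfl⟩ | ⟨x, hx, rfl⟩
  · exact ⟨x, hx, 1, Or.inl rfl, rfl⟩
  · exact ⟨x, hx, -1, Or.inr rfl, rfl⟩

theorem cY (hb : CbStmt) (h0 : BaseStmt) : IsCompact Y := by
  have h : ∀ σ : ℝ, σ = 1 ∨ σ = -1 → IsCompact (y0 σ '' B1) := fun σ hσ => by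
    refine h0.1.image_of_continuousOn ?_
    have h1 : ContinuousOn (fun x : ℂ × C2 => collB σ x.1 x.2) B1 :=
      (hb σ hσ).1.mono fun x hx =>
        ⟨(h0.2.1 x hx).2.2.2.2.2.1, by linarith [(h0.2.1 x hx).2.2.2.2.1, cl_pos]⟩
    exact h1.prodMk continuousOn_const
  exact (h 1 (Or.inl rfl)).union (h (-1) (Or.inr rfl))

omit [Lam] in
theorem cI (a b : ℝ) : IsCompact ((fun s : ℝ => (s : ℂ)) '' Icc a b) :=
  isCompact_Icc.image continuous_ofReal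

omit [Lam] in
theorem dist_le {y y' : Ez} {ζ ζ' : ℂ} {d : ℝ} (h1 : ‖y - y'‖ ≤ d) (h2 : ‖ζ - ζ'‖ ≤ d) :
    dist (y, ζ) (y', ζ') ≤ d := by
  rw [Prod.dist_eq, dist_eq_norm, dist_eq_norm]
  exact max_le h1 h2

omit [Lam] in
theorem opD : IsOpen DE := FL.Dir.op_nn.preimage continuous_fst

omit [Lam] in
theorem cD : ContinuousOn (fun y : Ez => (FL.dD y.1, FL.dDt y.1)) DE :=
  (FL.Dir.c_dD.comp continuousOn_fst fun _ hy => hy).prodMk
    (FL.Dir.c_dDt.comp continuousOn_fst fun _ hy => hy)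

omit [Lam] in
theorem lin (c : ℂ) (u : ℝ) : HasDerivWithinAt (fun u : ℝ => (u : ℂ) * c) c (Icc 0 1) u := by
  have e : HasDerivAt (fun x : ℝ => (x : ℂ) * c) c u := by
    simpa using (Complex.ofRealCLM.hasDerivAt (x := u)).mul_const c
  exact e.hasDerivWithinAt

omit [Lam] in
theorem bd {ζ a b : ℂ} {e : ℝ} (h : dist a b ≤ e) : ‖ζ * a - ζ * b‖ ≤ e * ‖ζ‖ := by
  rw [← mul_sub, norm_mul, ← dist_eq_norm, mul_comm]
  exact mul_le_mul_of_nonneg_right h (norm_nonneg _)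

omit [Lam] in
theorem ne0 {a ζ D : ℂ} {c : ℝ} (hc : 0 < c) (hζ : ζ ≠ 0) (hD : c ≤ ‖D‖)
    (h : ‖a - 0 - ζ * D‖ ≤ c / 2 * ‖ζ‖) : a ≠ 0 := by
  rintro rfl
  rw [sub_zero, zero_sub, norm_neg, norm_mul] at h
  have h1 := norm_pos_iff.2 hζ
  nlinarith [mul_le_mul_of_nonneg_left hD h1.le, mul_pos hc h1]

end P1

open P1

theorem p1S (hE : FlowEStmt) (hb : CbStmt) (h0 : BaseStmt) (hL : LimStmt) : P1Stmt := by
  intro σs e he
  have hKV : Y ×ˢ ((fun s : ℝ => (s : ℂ)) '' Icc 0 σs) ⊆ OE := by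
    rintro ⟨y, _⟩ ⟨hy, s, hs, rfl⟩
    obtain ⟨x, hx, σ, hσ, rfl⟩ := of_mem hy
    exact (hL x hx σ hσ s hs.1).1
  obtain ⟨d, hd, -, h⟩ := soft_unif ((cY hb h0).prod (cI 0 σs)) hE.op hKV hE.hol.continuousOn he
  refine ⟨d, hd, fun x hx σ hσ y hy s hs ζ hζ => ?_⟩
  have := h (y0 σ x, (s : ℂ)) ⟨mem_Y hx hσ, s, hs, rfl⟩ (y, ζ) (dist_le hy hζ)
  rw [dist_eq_norm] at this
  exact this

theorem s1S (hE : FlowEStmt) (hb : CbStmt) (h0 : BaseStmt) (hD : FL.DdStmt) : S1Stmt := by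
  have hY := cY hb h0
  have hYD : Y ⊆ DE := fun y hy => by
    obtain ⟨x, hx, σ, hσ, rfl⟩ := of_mem hy
    exact ((hb σ hσ).2 x hx).2.2.1
  have c1 : ContinuousOn (fun y : Ez => FL.dD y.1) Y := (cD.mono hYD).fst
  have c2 : ContinuousOn (fun y : Ez => FL.dDt y.1) Y := (cD.mono hYD).snd
  obtain ⟨c, hc, h1⟩ := hY.exists_forall_le' (f := fun y : Ez => min ‖FL.dD y.1‖ ‖FL.dDt y.1‖)
    (a := 0) (c1.norm.inf c2.norm) fun y hy => by
      obtain ⟨x, hx, σ, hσ, rfl⟩ := of_mem hy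
      exact lt_min (norm_pos_iff.2 ((hb σ hσ).2 x hx).2.2.2.2.2.1)
        (norm_pos_iff.2 ((hb σ hσ).2 x hx).2.2.2.2.2.2.1)
  obtain ⟨M, hM⟩ := hY.exists_bound_of_continuousOn c1
  obtain ⟨d0, hd0, h2, h3⟩ := soft_unif hY opD hYD cD (half_pos hc)
  have hK : IsCompact (cthickening d0 Y ×ˢ ({0} : Set ℂ)) := hY.cthickening.prod isCompact_singleton
  have hKV : cthickening d0 Y ×ˢ ({0} : Set ℂ) ⊆ OE := by
    rintro ⟨y, _⟩ ⟨hy, rfl⟩
    exact (hE.zero y (h2 hy)).1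
  have cG : ContinuousOn (fun p : Ez × ℂ => (FL.dD (FE p).1, FL.dDt (FE p).1)) OE :=
    cD.comp hE.hol.continuousOn fun p hp => (hE.mem p hp).2
  have h4 := fun (e : ℝ) (he : 0 < e) => soft_unif hK hE.op hKV cG he
  choose! s1 hs1 _ h5 using h4
  have hM1 : 0 < |M| + c := by positivity
  refine ⟨d0, min (c / 2) (1 / (|M| + c)), s1, hd0, by positivity, hs1,
    fun x hx σ hσ y hy => ?_⟩
  have hm := mem_Y hx hσ
  have hy' : dist y (y0 σ x) ≤ d0 := by rwa [dist_eq_norm]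
  have hyK : y ∈ cthickening d0 Y := mem_cthickening_of_dist_le y _ d0 Y hm hy'
  have a0 := (h3 _ hm y hy').2
  rw [Prod.dist_eq, dist_eq_norm, dist_eq_norm] at a0
  have a1 := (le_max_left _ _).trans a0
  have a2 := (le_max_right _ _).trans a0
  have a3 := (h1 _ hm).trans (min_le_left _ _)
  have a4 := (h1 _ hm).trans (min_le_right _ _)
  have a5 := hM _ hm
  simp only at a1 a2 a5
  refine ⟨(min_le_left _ _).trans ?_, ?_, (min_le_left _ _).trans ?_, fun e he ζ hζ => ?_⟩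
  · linarith [norm_le_norm_add_norm_sub (FL.dD y.1) (FL.dD (y0 σ x).1)]
  · rw [le_div_iff₀ (by positivity)]
    have b1 : ‖FL.dD y.1‖ ≤ |M| + c := by
      linarith [norm_le_norm_add_norm_sub' (FL.dD y.1) (FL.dD (y0 σ x).1), le_abs_self M]
    calc _ ≤ (|M| + c) * (1 / (|M| + c)) :=
          mul_le_mul b1 (min_le_right _ _) (by positivity) hM1.le
      _ = 1 := by field_simp
  · linarith [norm_le_norm_add_norm_sub (FL.dDt y.1) (FL.dDt (y0 σ x).1)]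
  · have hz := (hE.zero y (h2 hyK)).2
    have h6 : ∀ τ : ℂ, ‖τ‖ ≤ s1 e → (y, τ) ∈ OE ∧ dist (FL.dD (FE (y, τ)).1) (FL.dD y.1) ≤ e ∧
        dist (FL.dDt (FE (y, τ)).1) (FL.dDt y.1) ≤ e := fun τ hτ => by
      have := h5 e he (y, 0) ⟨hyK, rfl⟩ (y, τ)
        (dist_le (by simpa using (hs1 e he).le) (by simpa using hτ))
      rw [Prod.dist_eq, hz] at this
      exact ⟨this.1, (le_max_left _ _).trans this.2, (le_max_right _ _).trans this.2⟩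
    have hu : ∀ u ∈ Icc (0 : ℝ) 1, ‖(u : ℂ) * ζ‖ ≤ s1 e := fun u hu => by
      rw [norm_mul, norm_real, Real.norm_of_nonneg hu.1]
      nlinarith [hu.1, hu.2, norm_nonneg ζ]
    obtain ⟨-, ht⟩ := hE.traj (h6 ζ hζ).1
    have h7 := fun u hu => hD (fun u : ℝ => (FE (y, (u : ℂ) * ζ)).1) _ ζ (Icc 0 1) u (ht u hu).1
      (Or.inr ⟨_, _, rfl⟩) (ht u hu).2.fst
    have b1 := FL.Dir.incr (f := fun u : ℝ => dd (FE (y, (u : ℂ) * ζ)).1)
      (g := fun u : ℝ => (u : ℂ) * (ζ * FL.dD y.1)) (by simp) (fun u hu => (h7 u hu).1)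
      (fun u _ => lin _ u) (fun u hu' => bd (h6 _ (hu u hu')).2.1) 1 ⟨zero_le_one, le_rfl⟩
    have b2 := FL.Dir.incr (f := fun u : ℝ => ddt (FE (y, (u : ℂ) * ζ)).1)
      (g := fun u : ℝ => (u : ℂ) * (ζ * FL.dDt y.1)) (by simp) (fun u hu => (h7 u hu).2)
      (fun u _ => lin _ u) (fun u hu' => bd (h6 _ (hu u hu')).2.2) 1 ⟨zero_le_one, le_rfl⟩
    simp only [ofReal_one, one_mul, ofReal_zero, zero_mul, hz, mul_one] at b1 b2
    exact ⟨(h6 ζ hζ).1, b1, b2⟩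

theorem p1dS (hE : FlowEStmt) (hb : CbStmt) (h0 : BaseStmt) (hL : LimStmt) (_h1 : P1Stmt)
    (hS : S1Stmt) : P1DStmt := by
  intro σs
  obtain ⟨d0, c0, s1, hd0, hc0, hs1, hS⟩ := hS
  have hr := hs1 _ (half_pos hc0)
  have hW : IsOpen (OE ∩ FE ⁻¹' {y : Ez | dd y.1 ≠ 0 ∧ ddt y.1 ≠ 0}) :=
    hE.hol.continuousOn.isOpen_inter_preimage hE.op
      ((isOpen_ne_fun (FL.Dir.c_dd.comp continuous_fst) continuous_const).inter
        (isOpen_ne_fun (FL.Dir.c_ddt.comp continuous_fst) continuous_const))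
  have hKV : Y ×ˢ ((fun s : ℝ => (s : ℂ)) '' Icc (s1 (c0 / 2) / 2) σs) ⊆
      OE ∩ FE ⁻¹' {y : Ez | dd y.1 ≠ 0 ∧ ddt y.1 ≠ 0} := by
    rintro ⟨y, _⟩ ⟨hy, s, hs, rfl⟩
    obtain ⟨x, hx, σ, hσ, rfl⟩ := of_mem hy
    have hp : 0 < s := (half_pos hr).trans_le hs.1
    obtain ⟨a, τ2, τ3, -, -, -, -, -, -, -, b⟩ := hL x hx σ hσ s hp.le
    exact ⟨a, b hp⟩
  obtain ⟨d, hd, h⟩ := ((cY hb h0).prod (cI _ σs)).exists_cthickening_subset_open hW hKV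
  refine ⟨min d0 (min d (s1 (c0 / 2) / 2)), by positivity,
    fun x hx σ hσ y hy z1 z2 s hs ζ hζ hne => ?_⟩
  rcases le_or_gt ‖ζ‖ (s1 (c0 / 2)) with hle | hlt
  · obtain ⟨a1, -, a2, a3⟩ := hS x hx σ hσ y (hy.trans (min_le_left _ _))
    obtain ⟨-, b1, b2⟩ := a3 _ (half_pos hc0) ζ hle
    rw [z1] at b1
    rw [z2] at b2
    exact ⟨ne0 hc0 hne a1 b1, ne0 hc0 hne a2 b2⟩
  · have a1 := hζ.trans (min_le_right _ _)
    have a2 := norm_le_norm_add_norm_sub' ζ (s : ℂ)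
    rw [norm_real, Real.norm_of_nonneg hs.1] at a2
    have a3 : s1 (c0 / 2) / 2 ≤ s := by linarith [a1.trans (min_le_right _ _)]
    exact (h (mem_cthickening_of_dist_le (y, ζ) (y0 σ x, (s : ℂ)) d _
      ⟨mem_Y hx hσ, s, ⟨a3, hs.2⟩, rfl⟩
      (dist_le (hy.trans ((min_le_right _ _).trans (min_le_left _ _)))
        (a1.trans (min_le_left _ _))))).2

end Pool.Agent.MP_1ba41f_an.S2.W.KP
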